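import Pool.Agent.LE.StmtsH

/-!
# Squad LCH, module WTA: the smoothed spectral measures of sums and multiples
-/

set_option autoImplicit false

open MeasureTheory ProbabilityTheory Function Filter

open scoped ENNReal BigOperators InnerProductSpace Topology

noncomputable section

namespace Pool.Agent.LE.CH.H45

open Pool.Agent.Anderson Pool.Agent.Loc Pool.Agent.Mob Pool.Agent.Helper54.Bal

variable {d : ℕ}

theorem cont_G (d : ℕ) (η : ℝ) (u : L2 d) (hη : η ≠ 0) :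
    Continuous fun p : (Site d → ℝ) × ℝ => ‖G p.1 (zz η p.2) u‖ ^ 2 := by
  have h := continuous_G (d := d) hη
  have h2 : Continuous fun p : (Site d → ℝ) × ℝ => ((p.1, p.2, u) : (Site d → ℝ) × ℝ × L2 d) := by
    fun_prop
  have h3 := (h.comp h2).norm.pow 2
  exact h3

theorem meas_G01 (d : ℕ) (η : ℝ) (hη : η ≠ 0) (u : L2 d) :
    Measurable fun p : (Site d → ℝ) × ℝ => ‖G p.1 (zz η p.2) u‖ ^ 2 :=
  (cont_G d η u hη).measurable

theorem comp_left {A : Type} [MeasurableSpace A] (f : A × ℝ → ℝ) (h : Measurable f) (a : A) :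
    Measurable fun E => f (a, E) := h.comp measurable_prodMk_left

theorem meas_G02 (d : ℕ) (V : Site d → ℝ) (η : ℝ) (hη : η ≠ 0) (u : L2 d) :
    Measurable fun E : ℝ => (fun p : (Site d → ℝ) × ℝ => ‖G p.1 (zz η p.2) u‖ ^ 2) (V, E) :=
  comp_left _ (meas_G01 d η hη u) V

theorem meas_G03 (d : ℕ) (V : Site d → ℝ) (η : ℝ) (hη : η ≠ 0) (u : L2 d) :
    Measurable fun E : ℝ => ‖G V (zz η E) u‖ ^ 2 := by
  have h := meas_G02 d V η hη u
  exact h

theorem meas_G (V : Site d → ℝ) {η : ℝ} (hη : 0 < η) (u : L2 d) :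
    Measurable fun E : ℝ => ENNReal.ofReal (η / Real.pi * ‖G V (zz η E) u‖ ^ 2) :=
  ((meas_G03 d V η hη.ne' u).const_mul _).ennreal_ofReal

theorem wta : WtaStmt := by
  intro d V S η hη
  have hc : (0 : ℝ) ≤ η / Real.pi := by positivity
  refine ⟨fun u v => ?_, fun c u => ?_, fun n u => ?_⟩
  · unfold wt
    rw [← lintegral_const_mul _ (meas_G V hη u), ← lintegral_const_mul _ (meas_G V hη v),
      ← lintegral_add_left ((meas_G V hη u).const_mul _)]
    refine lintegral_mono fun E => ?_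
    have h1 : ‖G V (zz η E) (u + v)‖ ^ 2 ≤
        2 * ‖G V (zz η E) u‖ ^ 2 + 2 * ‖G V (zz η E) v‖ ^ 2 := by
      rw [map_add]
      have h2 := norm_add_le (G V (zz η E) u) (G V (zz η E) v)
      have h3 := pow_le_pow_left₀ (norm_nonneg _) h2 2
      nlinarith [sq_nonneg (‖G V (zz η E) u‖ - ‖G V (zz η E) v‖)]
    have h2 : ∀ x : ℝ, 2 * ENNReal.ofReal x = ENNReal.ofReal (2 * x) := fun x => by
      rw [ENNReal.ofReal_mul (by norm_num)]; simp
    show ENNReal.ofReal _ ≤ 2 * ENNReal.ofReal _ + 2 * ENNReal.ofReal _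
    rw [h2, h2, ← ENNReal.ofReal_add (by positivity) (by positivity)]
    apply ENNReal.ofReal_le_ofReal
    calc η / Real.pi * ‖G V (zz η E) (u + v)‖ ^ 2 ≤
        η / Real.pi * (2 * ‖G V (zz η E) u‖ ^ 2 + 2 * ‖G V (zz η E) v‖ ^ 2) :=
          mul_le_mul_of_nonneg_left h1 hc
      _ = _ := by ring
  · unfold wt
    rw [← lintegral_const_mul' _ _ ENNReal.ofReal_ne_top]
    refine lintegral_congr fun E => ?_
    rw [← ENNReal.ofReal_mul (by positivity), map_smul, norm_smul]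
    congr 1
    ring
  · unfold wt
    rw [← lintegral_finsetSum _ fun x _ => meas_G V hη (del x),
      ← lintegral_const_mul' _ _ ENNReal.ofReal_ne_top]
    refine lintegral_mono fun E => ?_
    show ENNReal.ofReal _ ≤ ENNReal.ofReal _ * ∑ x ∈ box (0 : Site d) n, ENNReal.ofReal _
    rw [← ENNReal.ofReal_sum_of_nonneg fun x _ => mul_nonneg hc (sq_nonneg _),
      ← ENNReal.ofReal_mul (by positivity)]
    apply ENNReal.ofReal_le_ofReal
    set g : Site d → ℝ := fun x => ‖G V (zz η E) (del x)‖ with hg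
    have h1 : ‖G V (zz η E) (∑ x ∈ box (0 : Site d) n, u x • del x)‖ ≤
        ∑ x ∈ box (0 : Site d) n, ‖u x‖ * g x := by
      rw [map_sum]
      refine (norm_sum_le _ _).trans (Finset.sum_le_sum fun x _ => ?_)
      rw [map_smul, norm_smul]
    have h2 : (∑ x ∈ box (0 : Site d) n, ‖u x‖ * g x) ^ 2 ≤
        (∑ x ∈ box (0 : Site d) n, ‖u x‖ ^ 2) * ∑ x ∈ box (0 : Site d) n, g x ^ 2 :=
      Finset.sum_mul_sq_le_sq_mul_sq _ _ _
    have h3 : ∑ x ∈ box (0 : Site d) n, ‖u x‖ ^ 2 ≤ ‖u‖ ^ 2 := by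
      rw [L2.norm_sq]
      exact (L2.summable_sq u).sum_le_tsum _ fun x _ => sq_nonneg _
    have h4 : (0 : ℝ) ≤ ∑ x ∈ box (0 : Site d) n, g x ^ 2 :=
      Finset.sum_nonneg fun x _ => sq_nonneg _
    calc η / Real.pi * ‖G V (zz η E) (∑ x ∈ box (0 : Site d) n, u x • del x)‖ ^ 2
        ≤ η / Real.pi * (∑ x ∈ box (0 : Site d) n, ‖u x‖ * g x) ^ 2 :=
          mul_le_mul_of_nonneg_left (pow_le_pow_left₀ (norm_nonneg _) h1 2) hc
      _ ≤ η / Real.pi * (‖u‖ ^ 2 * ∑ x ∈ box (0 : Site d) n, g x ^ 2) :=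
          mul_le_mul_of_nonneg_left (h2.trans (mul_le_mul_of_nonneg_right h3 h4)) hc
      _ = ‖u‖ ^ 2 * ∑ x ∈ box (0 : Site d) n, η / Real.pi * g x ^ 2 := by
          rw [← Finset.mul_sum]
          ring

end Pool.Agent.LE.CH.H45
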